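import Pool.Agent.L7h59.IA.ActNet
import Pool.Agent.L7h59.IA.Stat
import Pool.Agent.L7h59.IA.Fg
import Pool.Agent.L7h59.PP.Pub
import Pool.Agent.L7h59.PP.Tz
import Pool.Agent.L7h59.PP.Exa
import Pool.Agent.L7h71.PP.Fact
import Pool.Agent.L7h75.PP.Alg

/-!
# MP_04c03c_gt: random subgroups of the groups of the relative Cannon conjecture

`FinRes G` (starting files, `Pool/Agent/H919R4/ZS/Defs.lean`) is a finite resolution of the trivial
module `ℤ` by finitely generated free `ℤ[G]`-modules, given by its matrices. `(G, P)` is a Poincare
duality pair of dimension three in the form `PoincarePair P X` (Pool/Agent/L7h59/PP/Pub.lean): `X` is a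
finite free resolution of length at most two and `H²(G; ℤ[G])` is isomorphic to the augmentation
kernel of `⊕ ℤ[G ⧸ P i]`, twisted by a character `w : G → {1, -1}` (`DualPair`,
Pool/Agent/L7h59/PP/Stm.lean). By theorems of Bieri and Eckmann, Dahmani, Tshishiku and Walsh this holds
for each torsion-free group `G` as in the relative Cannon conjecture, `P` the peripheral subgroups.

The definitions of the representation theory are in `Pool/Agent/Q169/PT/Pub.lean`: `URep` (unitary
representations), `IsCocycle`, `WeaklyRegular` (weakly contained in the left regular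
representation), `RelativeT` (relative property (T)), `Amenable` (the condition of Foelner).
`InvariantNet` is defined in `Pool/Agent/L7h59/IA/ActNet.lean`, `AlmostEvery` (the mass tends to 1) in
`Pool/Agent/L7h59/IA/Net.lean`.
-/

set_option autoImplicit false

namespace Pool.Agent.Results.MP_04c03c_gt.RandomSubgroups

open MeasureTheory
open scoped ENNReal
open Pool.Agent.H919R4.ZS (FinRes)
open Pool.Agent.Q169.PT.Pub (URep IsCocycle WeaklyRegular RelativeT Amenable)
open Pool.Agent.L7h76.PT
open Pool.Agent.L7h59.IA (InvariantNet AlmostEvery)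
open Pool.Agent.L7h59.PP (PoincarePair)

/-- A family of subgroups indexed by a `G`-set is equivariant if `K (g y) = g K(y) g⁻¹`. (Examples:
`K(y)` is the stabilizer of `y`; or `Y` is the set of all subgroups and `K` is the identity.) -/
def Equivariant {G Y : Type} [Group G] [MulAction G Y] (K : Y → Subgroup G) : Prop :=
  ∀ (g : G) (y : Y), K (g • y) = (K y).map (MulAut.conj g).toMonoidHom

/-- The probability measure `ν` on `Y` is stationary for the probability measure `p` on `G`, and the
support of `p` generates `G` as a semigroup. (If `ν` is invariant, it is stationary for all `p`.) -/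
structure Stationary {G Y : Type} [Group G] [MulAction G Y] [MeasurableSpace Y] (p : G → ℝ≥0∞)
    (ν : Measure Y) : Prop where
  total : ∑' g, p g = 1
  gen : Submonoid.closure {g | p g ≠ 0} = ⊤
  stat : ∀ A : Set Y, MeasurableSet A → ν A = ∑' g, p g * ν {y | g • y ∈ A}

/-- `b` is unbounded on `K` -/
def Unbounded {G H : Type} [Group G] [NormedAddCommGroup H] (b : G → H) (K : Subgroup G) : Prop :=
  ∀ C : ℝ, ∃ g ∈ K, C < ‖b g‖

/-- Let `(G, P)` be a Poincare duality pair of dimension three such that all `P i` are infinite and one
of them is amenable and of infinite index. There are a unitary representation `π` which is weakly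
contained in the regular representation and a cocycle `b` for `π` which is not a coboundary such that:

1. For every action of `G` on a probability space `Y` with a stationary (for example: invariant)
measure and every measurable equivariant family `K` of subgroups (for example: the stabilizers), for
almost every `y` the subgroup `K(y)` is amenable or `b` is unbounded on it.

2. For every action of `G` on a set `Y` with an asymptotically invariant net of finitely supported
probability measures and every equivariant family `K` of subgroups, for almost every `y` the subgroup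
`K(y)` is amenable or `b` is unbounded on it. If `G` is nonamenable, then for almost every `y` the
stabilizer of `y` is nonamenable and `b` is unbounded on it.

3. Let `K` be a nonamenable subgroup of `G` such that `b` is unbounded on `K`. Then `K` has a cocycle for
a representation that is weakly contained in the regular representation of `K` which is not a
coboundary; all subgroups that commute with `K` are amenable; the pair `(K, N)` does not have the
relative property (T) for any nonamenable normal subgroup `N` of `K` (for example `N = K`). -/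
theorem result {G κ : Type} [Group G] (P : κ → Subgroup G) (X : FinRes G) (hX : PoincarePair P X)
    (hP : ∀ i, Infinite (P i)) (hA : ∃ i, Amenable (P i) ∧ ¬ (P i).FiniteIndex) :
    ∃ (H : Type) (_ : NormedAddCommGroup H) (_ : InnerProductSpace ℂ H) (_ : CompleteSpace H)
      (π : URep G H) (b : G → H), WeaklyRegular π ∧ IsCocycle π b ∧
        (∀ w : H, ∃ g : G, b g ≠ π.act g w - w) ∧
        (∀ (Y : Type) [MulAction G Y] [MeasurableSpace Y] (ν : Measure Y) [IsProbabilityMeasure ν]
          (p : G → ℝ≥0∞) (K : Y → Subgroup G), Stationary p ν → Equivariant K →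
          (∀ g : G, MeasurableSet {y | g ∈ K y}) →
          ∀ᵐ y ∂ν, Amenable (K y) ∨ Unbounded b (K y)) ∧
        (∀ (Y ι : Type) [MulAction G Y] (l : Filter ι) (μ : ι → Y →₀ ℝ), InvariantNet G l μ →
          (∀ K : Y → Subgroup G, Equivariant K →
            AlmostEvery l μ fun y => Amenable (K y) ∨ Unbounded b (K y)) ∧
          (¬ Amenable G → AlmostEvery l μ fun y =>
            ¬ Amenable (MulAction.stabilizer G y) ∧ Unbounded b (MulAction.stabilizer G y))) ∧
        (∀ K : Subgroup G, ¬ Amenable K → Unbounded b K →
          (∃ (H' : Type) (_ : NormedAddCommGroup H') (_ : InnerProductSpace ℂ H')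
            (_ : CompleteSpace H') (ρ : URep K H') (c : K → H'), WeaklyRegular ρ ∧ IsCocycle ρ c ∧
              ∀ w : H', ∃ g : K, c g ≠ ρ.act g w - w) ∧
          (∀ B : Subgroup G, (∀ a ∈ K, ∀ c ∈ B, a * c = c * a) → Amenable B) ∧
          (∀ N : Subgroup K, N.Normal → ¬ Amenable N → ¬ RelativeT K N)) := by
  obtain ⟨hlen, w, ε, hD⟩ := hX
  obtain ⟨i0, hA0, hI0⟩ := hA
  have hI : Infinite (G ⧸ P i0) := by
    by_contra h
    rw [not_infinite_iff_finite] at h
    exact hI0 (Subgroup.finiteIndex_of_finite_quotient (H := P i0))
  obtain ⟨H, i1, i2, i3, π, hπ, hv⟩ :=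
    Pool.Agent.L7h59.PP.main Pool.Agent.L7h71.PP.s_FACT Pool.Agent.L7h59.PP.s_TZERO
      Pool.Agent.L7h59.PP.s_EXA Pool.Agent.L7h75.PP.s_ALG P X w ε hlen hD hP i0 hA0 hI
  unfold Pool.Agent.Q169.PT.Van1 at hv
  push Not at hv
  obtain ⟨b, hb, hw⟩ := hv
  have hcount : Countable G := Pool.Agent.L7h59.IA.countable X
  have hout : ∀ K : Subgroup G, ¬ Amenable K → Unbounded b K → ∀ S ∈ Fam hb, ¬ K ≤ S := by
    intro K hK hu S hS hle
    obtain ⟨C, hC⟩ := (fam_iff hb K hK).2 ⟨S, hS, hle⟩
    obtain ⟨g, hg, hCg⟩ := hu C
    exact absurd (hC g hg) (not_le.2 hCg)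
  refine ⟨H, i1, i2, i3, Pool.Agent.Q169.PT.Br.toU π, b, Pool.Agent.Q169.PT.Br.tempered π hπ, hb, hw,
    ?_, ?_, ?_⟩
  · intro Y _ _ ν _ p K hst hK hm
    exact Pool.Agent.L7h59.IA.stat_main hπ hb hw ν p hst.total hst.gen K hK hm hst.stat
  · intro Y ι _ l μ hμ
    refine ⟨fun K hK => Pool.Agent.L7h59.IA.gae_main hμ hπ hb hw K hK, fun hG => ?_⟩
    refine Pool.Agent.L7h59.IA.gae_mono hμ.nonneg hμ.total (fun y hy => ?_)
      (Pool.Agent.L7h59.IA.gae_and hμ.nonneg hμ.total (Pool.Agent.L7h59.IA.gae_nonam hμ hG)
        (Pool.Agent.L7h59.IA.gae_main hμ hπ hb hw (fun y => MulAction.stabilizer G y)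
          fun g y => MulAction.stabilizer_smul_eq_stabilizer_map_conj g y))
    exact ⟨hy.1, hy.2.resolve_left hy.1⟩
  · intro K hK hu
    refine ⟨?_, fun B hKB => ?_, fun N hN hNa hT => ?_⟩
    · by_contra hcon
      push Not at hcon
      obtain ⟨S, hS, hle⟩ := fam_van hb hπ K hK fun H' _ _ _ ρ c hρ hc =>
        hcon H' inferInstance inferInstance inferInstance ρ c hρ hc
      exact hout K hK hu S hS hle
    · by_contra hB
      obtain ⟨S, hS, hle, -⟩ := fam_comm hb hπ K B hK hB hKB
      exact hout K hK hu S hS hle
    · obtain ⟨S, hS, hle⟩ := fam_T hb hπ K N hN hNa hT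
      exact hout K hK hu S hS hle

end Pool.Agent.Results.MP_04c03c_gt.RandomSubgroups
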