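import Pool.Agent.L7h55.SE.Uni
import Pool.Agent.L7h55.SE.Spec
import Pool.Agent.L7h55.SE.Perm
import Pool.Agent.L7h59.PP.Pub
import Pool.Agent.L7h59.PP.Tz
import Pool.Agent.L7h59.PP.Exa
import Pool.Agent.L7h71.PP.Fact
import Pool.Agent.L7h75.PP.Alg

/-!
# MP_04c03c_gt: zero in the spectrum and small eigenvalues for the relative Cannon conjecture

`FinRes G` (starting files, `Pool/Agent/H919R4/ZS/Defs.lean`) is a finite resolution of the trivial
module `ℤ` by finitely generated free `ℤ[G]`-modules, given by its matrices `X.d i`. `(G, P)` is a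
Poincare duality pair of dimension three in the form `PoincarePair P X` (Pool/Agent/L7h59/PP/Pub.lean):
`X` is a finite free resolution of length at most two and `H²(G; ℤ[G])` is isomorphic to the
augmentation kernel of `⊕ ℤ[G ⧸ P i]`, twisted by a character `w : G → {1, -1}` (`DualPair`,
Pool/Agent/L7h59/PP/Stm.lean). By theorems of Bieri and Eckmann, Dahmani, Tshishiku and Walsh this holds
for each torsion-free group `G` as in the relative Cannon conjecture, `P` the peripheral subgroups.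

`Rep G H` (starting files, `Pool/Agent/Q169/PT/Stm.lean`) is a unitary representation of `G` on `H`,
`π.alg a = ∑ a_g π(g)` for `a = ∑ a_g g` in `ℤ[G]`, and `L2 G` is the Hilbert space `ℓ²(G)`.
-/

set_option autoImplicit false

namespace Pool.Agent.Results.MP_04c03c_gt.SmallEigenvalues

open Pool.Agent.H919R4.ZS (FinRes L2)
open Pool.Agent.Q169.PT (Rep reg)
open Pool.Agent.Q169.PT.Pub (Amenable)
open Pool.Agent.L7h59.PP (PoincarePair)

noncomputable section

variable {G H : Type} [Group G] [NormedAddCommGroup H] [InnerProductSpace ℂ H]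

/-- The coboundary `C^i(X; H) → C^(i+1)(X; H)` of the cochains with coefficients in the unitary
representation `π`; a cochain of degree `i` is a tuple of `X.n i` vectors of `H`. -/
def cob (π : Rep G H) (X : FinRes G) (i : ℕ) (v : Fin (X.n i) → H) : Fin (X.n (i + 1)) → H :=
  fun k => ∑ j, π.alg (X.d i k j) (v j)

/-- The involution `∑ a_g g ↦ ∑ a_g g⁻¹` of the group ring. -/
def invol (a : MonoidAlgebra ℤ G) : MonoidAlgebra ℤ G :=
  a.coeff.sum fun g r => MonoidAlgebra.single g⁻¹ r

/-- The adjoint `C^(i+1)(X; H) → C^i(X; H)` of the coboundary. -/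
def cobAdj (π : Rep G H) (X : FinRes G) (i : ℕ) (v : Fin (X.n (i + 1)) → H) : Fin (X.n i) → H :=
  fun j => ∑ k, π.alg (invol (X.d i k j)) (v k)

/-- The square of the norm of a cochain. -/
def normSq {n : ℕ} (v : Fin n → H) : ℝ := ∑ j, ‖v j‖ ^ 2

/-- The inner product of two cochains. -/
def pair {n : ℕ} (u v : Fin n → H) : ℂ := ∑ j, inner ℂ (u j) (v j)

/-- The quadratic form `⟨Δ v, v⟩` of the Laplacian `Δ` in degree `i + 1`. -/
def energy (π : Rep G H) (X : FinRes G) (i : ℕ) (v : Fin (X.n (i + 1)) → H) : ℝ :=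
  normSq (cob π X (i + 1) v) + normSq (cobAdj π X i v)

theorem cob_zero (π : Rep G H) (X : FinRes G) (i : ℕ) : cob π X i 0 = 0 := by
  funext k
  simp [cob]

theorem cobAdj_zero (π : Rep G H) (X : FinRes G) (i : ℕ) : cobAdj π X i 0 = 0 := by
  funext k
  simp [cobAdj]

theorem cob_add (π : Rep G H) (X : FinRes G) (i : ℕ) (v w : Fin (X.n i) → H) :
    cob π X i (v + w) = cob π X i v + cob π X i w := by
  funext k
  simp [cob, Finset.sum_add_distrib]

theorem cobAdj_add (π : Rep G H) (X : FinRes G) (i : ℕ) (v w : Fin (X.n (i + 1)) → H) :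
    cobAdj π X i (v + w) = cobAdj π X i v + cobAdj π X i w := by
  funext k
  simp [cobAdj, Finset.sum_add_distrib]

theorem cob_smul (π : Rep G H) (X : FinRes G) (i : ℕ) (z : ℂ) (v : Fin (X.n i) → H) :
    cob π X i (z • v) = z • cob π X i v := by
  funext k
  simp [cob, Finset.smul_sum]

theorem cobAdj_smul (π : Rep G H) (X : FinRes G) (i : ℕ) (z : ℂ) (v : Fin (X.n (i + 1)) → H) :
    cobAdj π X i (z • v) = z • cobAdj π X i v := by
  funext k
  simp [cobAdj, Finset.smul_sum]

/-- `v` is harmonic, `Δ v = 0`. -/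
def IsHarm (π : Rep G H) (X : FinRes G) (i : ℕ) (v : Fin (X.n (i + 1)) → H) : Prop :=
  cob π X (i + 1) v = 0 ∧ cobAdj π X i v = 0

theorem isHarm_zero (π : Rep G H) (X : FinRes G) (i : ℕ) : IsHarm π X i 0 :=
  ⟨cob_zero π X _, cobAdj_zero π X _⟩

theorem isHarm_add (π : Rep G H) (X : FinRes G) (i : ℕ) {v w : Fin (X.n (i + 1)) → H}
    (hv : IsHarm π X i v) (hw : IsHarm π X i w) : IsHarm π X i (v + w) :=
  ⟨by rw [cob_add, hv.1, hw.1, add_zero], by rw [cobAdj_add, hv.2, hw.2, add_zero]⟩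

theorem isHarm_smul (π : Rep G H) (X : FinRes G) (i : ℕ) (z : ℂ) {v : Fin (X.n (i + 1)) → H}
    (hv : IsHarm π X i v) : IsHarm π X i (z • v) :=
  ⟨by rw [cob_smul, hv.1, smul_zero], by rw [cobAdj_smul, hv.2, smul_zero]⟩

/-- The harmonic cochains of degree `i + 1`, `ker Δ`. -/
def harmonic (π : Rep G H) (X : FinRes G) (i : ℕ) : Submodule ℂ (Fin (X.n (i + 1)) → H) where
  carrier := {v | IsHarm π X i v}
  zero_mem' := isHarm_zero π X i
  add_mem' := isHarm_add π X i
  smul_mem' := fun z _ => isHarm_smul π X i z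

/-- The cochains of degree `i` with coefficients in `π` have a spectral gap above `ε`: for some
`κ > ε`, `‖d u‖² ≥ κ ‖u‖²` for all `u` that are orthogonal to the kernel of `d`. -/
def GapBelow (π : Rep G H) (X : FinRes G) (i : ℕ) (ε : ℝ) : Prop :=
  ∃ κ : ℝ, ε < κ ∧ ∀ u : Fin (X.n i) → H,
    (∀ z : Fin (X.n i) → H, cob π X i z = 0 → pair z u = 0) → κ * normSq u ≤ normSq (cob π X i u)

/-- `V` is a space of cochains of degree `i + 1` orthogonal to the harmonic ones on which
`⟨Δ v, v⟩ ≤ ε ‖v‖²`; its elements are coclosed if there is a spectral gap above `ε` in degree `i`.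
So `Δ` has at least `dim V` eigenvalues in `(0, ε]`, and at least `dim V` such eigenvalues on the
coclosed cochains if there is a gap above `ε` in degree `i`. -/
def IsSmall (π : Rep G H) (X : FinRes G) (i : ℕ) (ε : ℝ)
    (V : Submodule ℂ (Fin (X.n (i + 1)) → H)) : Prop :=
  ∀ v ∈ V, energy π X i v ≤ ε * normSq v ∧ (∀ h ∈ harmonic π X i, pair h v = 0) ∧
    (GapBelow π X i ε → cobAdj π X i v = 0)

/-- There is a space `V` as in `IsSmall` with `dim V ≥ r - dim ker Δ`. -/
def HasSmall (π : Rep G H) (X : FinRes G) (i : ℕ) (ε r : ℝ) : Prop :=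
  ∃ V : Submodule ℂ (Fin (X.n (i + 1)) → H), IsSmall π X i ε V ∧
    r ≤ Module.finrank ℂ V + Module.finrank ℂ (harmonic π X i)

/-- The vector `π(g) v`. -/
def app (π : Rep G H) (g : G) (v : H) : H := π.hom g v

/-- The absolute value of the trace of `π(g)`. -/
def absTrace (π : Rep G H) (g : G) : ℝ := ‖LinearMap.trace ℂ H (π.hom g).toLinearMap‖

/-- `π` is the left regular representation `(π(g) f)(x) = f(g⁻¹ x)` of `G` on `ℓ²(G)`. -/
def IsLeftRegular (π : Rep G (L2 G)) : Prop :=
  ∀ (g : G) (f : L2 G) (x : G), app π g f x = f (g⁻¹ * x)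

/-- For every `ε > 0` there is a cochain `v ≠ 0` with `⟨Δ v, v⟩ ≤ ε ‖v‖²`. -/
def AlmostHarmonic (π : Rep G H) (X : FinRes G) (i : ℕ) : Prop :=
  ∀ ε : ℝ, 0 < ε → ∃ v : Fin (X.n (i + 1)) → H, v ≠ 0 ∧ energy π X i v ≤ ε * normSq v

/-- Zero is in the spectrum of the Laplacian in degree `i + 1` on the `ℓ²`-cochains of the universal
covering (the cochains with coefficients in the left regular representation). -/
def ZeroInSpectrum (X : FinRes G) (i : ℕ) : Prop :=
  ∃ π : Rep G (L2 G), IsLeftRegular π ∧ AlmostHarmonic π X i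

/-- `π` is the representation `(π(g) f)(x) = f(g⁻¹ x)` of `G` on the functions on the `G`-set `Ω`. -/
def IsTranslation {Ω : Type} [Fintype Ω] [MulAction G Ω] (π : Rep G (EuclideanSpace ℂ Ω)) : Prop :=
  ∀ (g : G) (f : EuclideanSpace ℂ Ω) (x : Ω), app π g f x = f (g⁻¹ • x)

/-- The statement `HasSmall` for the finite covering of `X` that belongs to the finite `G`-set `Ω` (for
`Ω = G ⧸ N`: the covering with the group `N`). Its cochains are the cochains with coefficients in the
representation of `G` on the functions on `Ω`. -/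
def CoverHasSmall (X : FinRes G) (i : ℕ) (ε : ℝ) (Ω : Type) [Fintype Ω] [MulAction G Ω] (r : ℝ) :
    Prop :=
  ∃ π : Rep G (EuclideanSpace ℂ Ω), IsTranslation π ∧ HasSmall π X i ε r

open Pool.Agent.L7h55.SE.Pow Pool.Agent.L7h55.SE.FinD in
theorem cob_eq (π : Rep G H) (X : FinRes G) (i : ℕ) (v : Fin (X.n i) → H) :
    cob π X i v = mo π (X.d i) v := by
  funext k
  rw [mo_apply]
  rfl

open Pool.Agent.L7h55.SE.Pow Pool.Agent.L7h55.SE.FinD in
theorem cobAdj_eq (π : Rep G H) (X : FinRes G) (i : ℕ) (v : Fin (X.n (i + 1)) → H) :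
    cobAdj π X i v = mo π (Pool.Agent.L7h55.SE.Pow.stM (X.d i)) v := by
  funext k
  rw [mo_apply]
  rfl

open Pool.Agent.L7h55.SE.Pow Pool.Agent.L7h55.SE.FinD in
theorem energy_eq (π : Rep G H) (X : FinRes G) (i : ℕ) (v : Fin (X.n (i + 1)) → H) :
    energy π X i v = en π X i v := by
  unfold energy
  rw [cob_eq, cobAdj_eq]
  rfl

open Pool.Agent.L7h55.SE.Pow Pool.Agent.L7h55.SE.FinD in
theorem harmonic_eq (π : Rep G H) (X : FinRes G) (i : ℕ) : harmonic π X i = harm π X i := by
  ext v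
  change (cob π X (i + 1) v = 0 ∧ cobAdj π X i v = 0) ↔ _
  rw [cob_eq, cobAdj_eq]
  rfl

open Pool.Agent.L7h55.SE.Pow Pool.Agent.L7h55.SE.FinD in
theorem gap_eq (π : Rep G H) (X : FinRes G) (i : ℕ) (ε : ℝ) (h : GapBelow π X i ε) :
    Gp π X i ε := by
  obtain ⟨κ, h1, h2⟩ := h
  refine ⟨κ, h1, fun u hu => ?_⟩
  have h3 := h2 u fun z hz => hu z (by rw [← cob_eq]; exact hz)
  rw [cob_eq] at h3
  exact h3

/-- Let `(G, P)` be a Poincare duality pair of dimension three such that all `P i` are infinite and one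
of them is amenable and of infinite index; `p = 1`.

1. Zero is in the spectrum of the Laplacian on the `ℓ²`-cochains of degree `p` of the universal
covering: for every `ε > 0` there is a nonzero `v` with `⟨Δ v, v⟩ ≤ ε ‖v‖²`.

2. For every `ε > 0` there are `c > 0`, `C` and a finite subset `F` of `G`, `1 ∉ F`, such that for
every finite-dimensional unitary representation `π` of `G` the Laplacian on the cochains of degree
`p` with coefficients in `π` has at least
`c dim π - dim H^p(X; π) - C ∑_{g ∈ F} |tr π(g)|` eigenvalues in `(0, ε]`.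

3. For a finite `G`-set `Ω` and the corresponding finite covering of `X` this number is
`c |Ω| - b_p - C ∑_{g ∈ F} |Fix(g)|`.

4. For the finite regular covering with the group `N`, `N` a normal subgroup of finite index with
`N ∩ F = ∅`, the number is `c [G : N] - b_p`.

If the covering (or `π`) has a spectral gap above `ε` in degree `p - 1` these eigenvalues belong to
coclosed cochains. -/
theorem result {G κ : Type} [Group G] (P : κ → Subgroup G) (X : FinRes G) (hX : PoincarePair P X)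
    (hP : ∀ i, Infinite (P i)) (hA : ∃ i, Amenable (P i) ∧ ¬ (P i).FiniteIndex) :
    ZeroInSpectrum X 0 ∧
    ∀ ε : ℝ, 0 < ε → ∃ (c C : ℝ) (F : Finset G), 0 < c ∧ 1 ∉ F ∧
      (∀ (H : Type) [NormedAddCommGroup H] [InnerProductSpace ℂ H] [FiniteDimensional ℂ H]
        (π : Rep G H), HasSmall π X 0 ε (c * Module.finrank ℂ H - C * ∑ g ∈ F, absTrace π g)) ∧
      (∀ (Ω : Type) [Fintype Ω] [MulAction G Ω],
        CoverHasSmall X 0 ε Ω (c * Fintype.card Ω -
          C * ∑ g ∈ F, ({x : Ω | g • x = x}.ncard : ℝ))) ∧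
      (∀ (N : Subgroup G) [Fintype (G ⧸ N)], N.Normal → (∀ g ∈ F, g ∉ N) →
        CoverHasSmall X 0 ε (G ⧸ N) (c * N.index)) := by
  classical
  -- zero in the spectrum
  have hz : ∀ ε : ℝ, 0 < ε → ∃ c : Pool.Agent.L7h55.SE.Coch X G (0 + 1), c ≠ 0 ∧
      Pool.Agent.L7h55.SE.nsq (Pool.Agent.L7h55.SE.cob X (0 + 1) c) +
        Pool.Agent.L7h55.SE.nsq (Pool.Agent.L7h55.SE.cobAdj X 0 c) ≤
          ε * Pool.Agent.L7h55.SE.nsq c := by
    intro ε hε
    by_contra hcon
    obtain ⟨hlen, w, e, hD⟩ := hX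
    obtain ⟨i0, hA0, hI0⟩ := hA
    have hI : Infinite (G ⧸ P i0) := by
      by_contra h
      rw [not_infinite_iff_finite] at h
      exact hI0 (Subgroup.finiteIndex_of_finite_quotient (H := P i0))
    obtain ⟨H, i1, i2, i3, π, hπ, hv⟩ :=
      Pool.Agent.L7h59.PP.main Pool.Agent.L7h71.PP.s_FACT Pool.Agent.L7h59.PP.s_TZERO
        Pool.Agent.L7h59.PP.s_EXA Pool.Agent.L7h75.PP.s_ALG P X w e hlen hD hP i0 hA0 hI
    refine hv (Pool.Agent.L7h55.SE.Pow.gap_van hπ X ε hε fun v => ?_)
    by_contra h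
    push Not at h
    exact hcon (Pool.Agent.L7h55.SE.approx X 0 ε v h)
  refine ⟨⟨reg G, fun _ _ _ => rfl, fun ε hε => ?_⟩, fun ε hε => ?_⟩
  · obtain ⟨c, hc0, hc⟩ := hz ε hε
    have hn : normSq (Pool.Agent.L7h55.SE.Et c) = Pool.Agent.L7h55.SE.nsq c :=
      Pool.Agent.L7h55.SE.q_Et c
    refine ⟨Pool.Agent.L7h55.SE.Et c, fun h0 => ?_, ?_⟩
    · rw [h0] at hn
      have h1 := Pool.Agent.L7h55.SE.nsq_pos c hc0
      rw [← hn] at h1
      simp [normSq] at h1
    · unfold energy
      rw [cob_eq, cobAdj_eq, Pool.Agent.L7h55.SE.mo_Et, Pool.Agent.L7h55.SE.moAdj_Et, hn]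
      have h1 : normSq (Pool.Agent.L7h55.SE.Et (Pool.Agent.L7h55.SE.cob X (0 + 1) c)) =
          Pool.Agent.L7h55.SE.nsq (Pool.Agent.L7h55.SE.cob X (0 + 1) c) :=
        Pool.Agent.L7h55.SE.q_Et _
      have h2 : normSq (Pool.Agent.L7h55.SE.Et (Pool.Agent.L7h55.SE.cobAdj X 0 c)) =
          Pool.Agent.L7h55.SE.nsq (Pool.Agent.L7h55.SE.cobAdj X 0 c) :=
        Pool.Agent.L7h55.SE.q_Et _
      rw [h1, h2]
      exact hc
  · obtain ⟨c, C, F, hc, hF, huni⟩ := Pool.Agent.L7h55.SE.FinD.unitary X 0 hz ε hε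
    have h2 : ∀ (H : Type) [NormedAddCommGroup H] [InnerProductSpace ℂ H] [FiniteDimensional ℂ H]
        (π : Rep G H), HasSmall π X 0 ε (c * Module.finrank ℂ H -
          C * ∑ g ∈ F, absTrace π g) := by
      intro H _ _ _ π
      obtain ⟨V, hV, hs⟩ := huni H π
      refine ⟨V, fun v hv => ?_, ?_⟩
      · obtain ⟨h3, h4, h5⟩ := hs v hv
        refine ⟨?_, ?_, ?_⟩
        · rw [energy_eq]
          exact h3
        · intro h hh
          rw [harmonic_eq] at hh
          exact h4 h hh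
        · intro hg
          rw [cobAdj_eq]
          exact h5 (gap_eq π X 0 ε hg)
      · rw [harmonic_eq]
        unfold absTrace
        linarith
    have h3 : ∀ (Ω : Type) [Fintype Ω] [MulAction G Ω],
        CoverHasSmall X 0 ε Ω (c * Fintype.card Ω -
          C * ∑ g ∈ F, ({x : Ω | g • x = x}.ncard : ℝ)) := by
      intro Ω _ _
      refine ⟨Pool.Agent.L7h55.SE.Perm.perm Ω, fun _ _ _ => rfl, ?_⟩
      obtain ⟨V, hV, hd⟩ := h2 (EuclideanSpace ℂ Ω) (Pool.Agent.L7h55.SE.Perm.perm Ω)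
      refine ⟨V, hV, ?_⟩
      rw [finrank_euclideanSpace] at hd
      have h4 : ∀ g ∈ F, absTrace (Pool.Agent.L7h55.SE.Perm.perm (G := G) Ω) g =
          ({x : Ω | g • x = x}.ncard : ℝ) := by
        intro g _
        unfold absTrace
        rw [Pool.Agent.L7h55.SE.Perm.trace_perm, Complex.norm_natCast]
      rw [Finset.sum_congr rfl h4] at hd
      exact hd
    refine ⟨c, C, F, hc, hF, h2, h3, ?_⟩
    intro N _ hN hFN
    have hd := h3 (G ⧸ N)
    have h4 : ∀ g ∈ F, ({x : G ⧸ N | g • x = x}.ncard : ℝ) = 0 := by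
      intro g hg
      have h5 : {x : G ⧸ N | g • x = x} = ∅ := by
        ext x
        simp only [Set.mem_ofPred_eq, Set.mem_empty_iff_false, iff_false]
        induction x using QuotientGroup.induction_on with
        | H a =>
          intro h
          have h6 : ((g * a : G) : G ⧸ N) = (a : G ⧸ N) := h
          rw [eq_comm, QuotientGroup.eq] at h6
          have h7 := hN.conj_mem _ h6 a
          apply hFN g hg
          have h8 : a * (a⁻¹ * (g * a)) * a⁻¹ = g := by group
          rwa [h8] at h7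
      rw [h5]
      simp
    rw [Finset.sum_eq_zero h4, mul_zero, sub_zero] at hd
    rw [Subgroup.index_eq_card, Nat.card_eq_fintype_card]
    exact hd

end

end Pool.Agent.Results.MP_04c03c_gt.SmallEigenvalues
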