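import Pool.Agent.L7h59.PP.Pub
import Pool.Agent.L7h59.PP.Tz
import Pool.Agent.L7h59.PP.Exa
import Pool.Agent.L7h71.PP.Fact
import Pool.Agent.L7h75.PP.Alg

/-!
# MP_04c03c_gt: tempered cocycles on the groups of the relative Cannon conjecture

`FinRes G` (starting files, `Pool/Agent/H919R4/ZS/Defs.lean`) is a finite resolution of the trivial
module `ℤ` by finitely generated free `ℤ[G]`-modules, given by its matrices. `(G, P)` is a Poincare
duality pair of dimension three in the form `PoincarePair P X` (Pool/Agent/L7h59/PP/Pub.lean): `X` is a
finite free resolution of length at most two and `H²(G; ℤ[G])` is isomorphic to the augmentation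
kernel of `⊕ ℤ[G ⧸ P i]`, twisted by a character `w : G → {1, -1}` (`DualPair`,
Pool/Agent/L7h59/PP/Stm.lean). By theorems of Bieri and Eckmann, Dahmani, Tshishiku and Walsh this holds
for each torsion-free group `G` as in the relative Cannon conjecture, `P` the peripheral subgroups.

The definitions of the representation theory are in `Pool/Agent/Q169/PT/Pub.lean`: `URep` (unitary
representations), `IsCocycle`, `WeaklyRegular` (weakly contained in the left regular
representation), `PropertyT`, `RelativeT`, `Amenable` (the condition of Foelner).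
-/

set_option autoImplicit false

namespace Pool.Agent.Results.MP_04c03c_gt.TemperedCocycles

open Pool.Agent.H919R4.ZS (FinRes toRed)
open Pool.Agent.Q169.PT.Pub (URep IsCocycle WeaklyRegular PropertyT RelativeT Amenable)
open Pool.Agent.L7h59.PP (conj WeaklyQuasinormal NoTemperedCocycles PoincarePair)

/-- Let `(G, P)` be a Poincare duality pair of dimension three such that all `P i` are infinite and one
of them is amenable and of infinite index.

1. There are a unitary representation `π` which is weakly contained in the regular representation, a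
cocycle `b` for `π` which is not a coboundary, and a family `F` of nonamenable subgroups of `G` of
infinite index such that:
* the nonamenable subgroups on which `b` is bounded are those that are contained in a member of `F`;
* `F` is invariant under conjugation, `S ∩ g S g⁻¹` is amenable for `S ∈ F` and `g ∉ S`, and
  `S ∩ T` is amenable for different `S, T ∈ F`;
* every nonamenable subgroup without tempered cocycles is contained in a member of `F`;
* if `M` is a subgroup and `(M, N)` has the relative property (T) for a nonamenable normal subgroup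
  `N` of `M` then `M` is contained in a member of `F`.

2. A nonamenable weakly quasinormal subgroup of `G` has a tempered cocycle which is not a coboundary,
and it does not have property (T).

3. A subgroup `N` such that `N ∩ g N g⁻¹` is nonamenable for all `g` is weakly quasinormal.

4. The homology of `G` with coefficients in the reduced `C*`-algebra of `G` is nonzero in a degree at
most two. -/
theorem result {G ι : Type} [Group G] (P : ι → Subgroup G) (X : FinRes G) (hX : PoincarePair P X)
    (hP : ∀ i, Infinite (P i)) (hA : ∃ i, Amenable (P i) ∧ ¬ (P i).FiniteIndex) :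
    (∃ (H : Type) (_ : NormedAddCommGroup H) (_ : InnerProductSpace ℂ H) (_ : CompleteSpace H)
      (π : URep G H) (b : G → H), WeaklyRegular π ∧ IsCocycle π b ∧
        (∀ w : H, ∃ g : G, b g ≠ π.act g w - w) ∧
        ∃ F : Set (Subgroup G),
          (∀ S ∈ F, ¬ S.FiniteIndex ∧ ¬ Amenable S) ∧
          (∀ N : Subgroup G, ¬ Amenable N → ((∃ C : ℝ, ∀ g ∈ N, ‖b g‖ ≤ C) ↔ ∃ S ∈ F, N ≤ S)) ∧
          (∀ S ∈ F, ∀ g : G, conj g S ∈ F) ∧
          (∀ S ∈ F, ∀ g : G, g ∉ S → Amenable ↥(S ⊓ conj g S)) ∧
          (∀ S ∈ F, ∀ T ∈ F, S ≠ T → Amenable ↥(S ⊓ T)) ∧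
          (∀ M : Subgroup G, ¬ Amenable M → NoTemperedCocycles M → ∃ S ∈ F, M ≤ S) ∧
          (∀ (M : Subgroup G) (N : Subgroup M), N.Normal → ¬ Amenable N → RelativeT M N →
            ∃ S ∈ F, M ≤ S)) ∧
    (∀ N : Subgroup G, ¬ Amenable N → WeaklyQuasinormal N →
      ¬ NoTemperedCocycles N ∧ ¬ PropertyT N) ∧
    (∀ N : Subgroup G, (∀ g : G, ¬ Amenable ↥(N ⊓ conj g N)) → WeaklyQuasinormal N) ∧
    ∃ i ≤ 2, ¬ Subsingleton (X.homology (toRed G) i) :=
  Pool.Agent.L7h59.PP.concl Pool.Agent.L7h71.PP.s_FACT Pool.Agent.L7h59.PP.s_TZERO
    Pool.Agent.L7h59.PP.s_EXA Pool.Agent.L7h75.PP.s_ALG P X hX hP hA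

end Pool.Agent.Results.MP_04c03c_gt.TemperedCocycles
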